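import Pool.Agent.R887.TrvX
import Pool.Agent.R887.PsF
import Pool.Agent.R887.Bez

/-!
Finite multi-valued maps: the mixed degrees are finite, and pseudo-effective divisors `K_X + Δ` and
their sections are pushed forward.
-/

set_option autoImplicit false
set_option linter.overlappingInstances false
set_option linter.unusedSectionVars false

open FF Module MvPolynomial Pool.Agent.W602.GT Pool.Agent.W603.LV Pool.Agent.W619.PQ
open Pool.Agent.Y172 Pool.Agent.Y191 Pool.Agent.R887

namespace Pool.Agent.N760.TW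

section

variable {K : Type} [Field K] [Algebra ℂ K] {n : ℕ}

/-- The degrees of the rational maps given by quotients of combinations of finitely many fixed
functions are bounded. -/
theorem span_bound (hess : Algebra.EssFiniteType ℂ K) (hn : Algebra.trdeg ℂ K = n)
    {κ : Type} [Fintype κ] (g : κ → K) :
    ∃ C : ℕ, ∀ {ι : Type} [Finite ι], Nat.card ι = n → ∀ (w : ι → K) (a b : ι → κ → ℂ),
      (∀ i, ∑ l, algebraMap ℂ K (b i l) * g l ≠ 0) →
      (∀ i, w i = (∑ l, algebraMap ℂ K (a i l) * g l) / ∑ l, algebraMap ℂ K (b i l) * g l) →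
      dg ℂ w ≤ C := by
  classical
  obtain ⟨U, -, hU, -⟩ := exists_crd hn (k := ℂ) (K := K)
  choose Q hQ0 hQ using fun l => exists_multS hU (g l)
  obtain ⟨q, hq⟩ : ∃ q, q = aeval U (∏ l, Q l) := ⟨_, rfl⟩
  have hq0 : q ≠ 0 := by
    rw [hq]
    intro h0
    exact Finset.prod_ne_zero_iff.2 (fun l _ => hQ0 l)
      ((injective_iff_map_eq_zero _).1 hU.1 _ h0)
  have hint : ∀ l, IsIntegral (Algebra.adjoin ℂ (Set.range U)) (q * g l) := by
    intro l
    have h1 : q * g l = aeval U (∏ j ∈ Finset.univ.erase l, Q j) * (aeval U (Q l) * g l) := by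
      rw [hq, ← Finset.mul_prod_erase Finset.univ Q (Finset.mem_univ l), map_mul]
      ring
    rw [h1]
    refine IsIntegral.mul ?_ (hQ l)
    have h2 : aeval U (∏ j ∈ Finset.univ.erase l, Q j) ∈ Algebra.adjoin ℂ (Set.range U) := by
      rw [Algebra.adjoin_range_eq_range_aeval]
      exact ⟨_, rfl⟩
    exact isIntegral_algebraMap (R := Algebra.adjoin ℂ (Set.range U)) (A := K) (x := ⟨_, h2⟩)
  obtain ⟨μ, hμ⟩ := exists_isMin (k := ℂ) (S := insert (1 : K) (Set.range U))
    ((Set.finite_range _).insert _) ⟨1, Set.mem_insert _ _, one_ne_zero⟩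
  choose D hD using fun l => ge_int hμ (hint l)
  obtain ⟨B, hB⟩ : ∃ B : ℕ, B = ∑ l, D l := ⟨_, rfl⟩
  have hlin : ∀ a : κ → ℂ, ∑ l, algebraMap ℂ K (a l) * g l ≠ 0 →
      q * (∑ l, algebraMap ℂ K (a l) * g l) ≠ 0 ∧
      Bnd ℂ (insert (1 : K) (Set.range U)) B (q * ∑ l, algebraMap ℂ K (a l) * g l) := by
    intro a ha
    refine ⟨mul_ne_zero hq0 ha, hμ.bnd (mul_ne_zero hq0 ha) fun P => ?_⟩
    have h2 : q * (∑ l, algebraMap ℂ K (a l) * g l) =
        ∑ l, algebraMap ℂ K (a l) * (q * g l) := by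
      rw [Finset.mul_sum]
      exact Finset.sum_congr rfl fun l _ => by ring
    rw [h2]
    refine Ge.sum _ _ fun l _ => ?_
    have h3 := (Ge.const (P := P) (a l)).mul (hD l P)
    refine h3.mono ?_
    rw [zero_add, hB]
    have h4 : (D l : ℤ) ≤ ((∑ l, D l : ℕ) : ℤ) := by
      exact_mod_cast Finset.single_le_sum (f := D) (fun _ _ => Nat.zero_le _) (Finset.mem_univ l)
    exact mul_le_mul_of_nonpos_right h4 (hμ.nonpos (Set.mem_insert _ _) P)
  refine ⟨B ^ n * finrank (IntermediateField.adjoin ℂ (Set.range U)) K, ?_⟩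
  intro ι _ hcard w a b hb hab
  have : Fintype ι := Fintype.ofFinite ι
  by_cases h0 : dg ℂ w = 0
  · rw [h0]
    exact Nat.zero_le _
  have hn' : Algebra.trdeg ℂ K = Nat.card ι := by rw [hn, hcard]
  have hbas := basis_of_dg hn' h0
  have ha : ∀ i, ∑ l, algebraMap ℂ K (a i l) * g l ≠ 0 := by
    intro i h2
    have h3 := hbas.1.ne_zero i
    rw [hab i, h2, zero_div] at h3
    exact h3 rfl
  obtain ⟨v, hv1, -, hv2⟩ := replace_each hn' ((Set.finite_range _).insert _)
    (Set.mem_insert _ _) (S := insert (1 : K) (Set.range U)) (B := B)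
    (fun i => q * ∑ l, algebraMap ℂ K (a i l) * g l)
    (fun i => q * ∑ l, algebraMap ℂ K (b i l) * g l)
    (fun i => (hlin (a i) (ha i)).1) (fun i => (hlin (b i) (hb i)).1)
    (fun i => (hlin (a i) (ha i)).2) (fun i => (hlin (b i) (hb i)).2) Finset.univ w
    (fun i _ => by
      rw [mul_div_mul_left _ _ hq0]
      exact hab i)
  rw [Finset.card_univ, ← Nat.card_eq_fintype_card, hcard] at hv2
  exact hv2.trans (Nat.mul_le_mul_left _ (affine_le hn' hess hU hcard
    fun i => hv1 i (Finset.mem_univ i)))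

end

section

variable {K K' L : Type} [Field K] [Algebra ℂ K] [Field K'] [Algebra ℂ K'] [Field L] [Algebra ℂ L]
  {N N' : ℕ} {y : Fin (N + 1) → K} {y' : Fin (N' + 1) → K'} {n : ℕ}

theorem ess_of_range (hess : Algebra.EssFiniteType ℂ K') (ψ : K' →ₐ[ℂ] L)
    (hψ0 : FiniteDimensional ψ.fieldRange L) (hn' : Algebra.trdeg ℂ K' = n) :
    Algebra.EssFiniteType ℂ L ∧ Algebra.trdeg ℂ L = n := by
  let _ : Algebra K' L := ψ.toRingHom.toAlgebra
  have hst' : IsScalarTower ℂ K' L := IsScalarTower.of_algebraMap_eq fun c => (ψ.commutes c).symm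
  have hfd' : FiniteDimensional K' L := fd_of_range ψ hψ0
  have hessL : Algebra.EssFiniteType ℂ L := by
    have h1 : Algebra.EssFiniteType K' L := inferInstance
    exact Algebra.EssFiniteType.comp ℂ K' L
  exact ⟨hessL, trdeg_up (K := K') hn'⟩

theorem range_finite (hessL : Algebra.EssFiniteType ℂ L) (hnL : Algebra.trdeg ℂ L = n)
    (hn : Algebra.trdeg ℂ K = n) (φ : K →ₐ[ℂ] L) : FiniteDimensional φ.fieldRange L := by
  let _ : Algebra K L := φ.toRingHom.toAlgebra
  have hst : IsScalarTower ℂ K L := IsScalarTower.of_algebraMap_eq fun c => (φ.commutes c).symm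
  have hfd : FiniteDimensional K L := finite_map hn hnL
  have h1 : 0 < Module.finrank K L := Module.finrank_pos
  have hdeg : Module.finrank φ.fieldRange L = Module.finrank K L := by
    let e : K ≃ₐ[ℂ] φ.fieldRange := AlgEquiv.ofInjectiveField φ
    refine (Algebra.finrank_eq_of_equiv_equiv e.toRingEquiv (RingEquiv.refl L) ?_).symm
    ext x
    rfl
  exact FiniteDimensional.of_finrank_pos (by rw [hdeg]; exact h1)

/-- **The mixed degrees of a multi-valued map are finite.** -/
theorem exists_multi (hn0 : 0 < n) (hessL : Algebra.EssFiniteType ℂ L)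
    (hnL : Algebra.trdeg ℂ L = n) (φ : K →ₐ[ℂ] L) (ψ : K' →ₐ[ℂ] L)
    (hφ0 : FiniteDimensional φ.fieldRange L) :
    ∃ c : ℝ, MultiDegreeLe φ ψ y y' (n - 1) 1 c := by
  classical
  obtain ⟨C, hC⟩ := span_bound hessL hnL
    (Sum.elim (fun i => φ (y i)) fun i => ψ (y' i) : Fin (N + 1) ⊕ Fin (N' + 1) → L)
  refine ⟨C, fun u hu v hv => ?_⟩
  choose a b hb hab using hu
  choose a' b' hb' hab' using hv
  have hφs : ∀ c : Fin (N + 1) → ℂ, φ (∑ i, algebraMap ℂ K (c i) * y i) =
      ∑ i, algebraMap ℂ L (c i) * φ (y i) := by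
    intro c
    rw [map_sum]
    exact Finset.sum_congr rfl fun i _ => by rw [map_mul, AlgHom.commutes]
  have hψs : ∀ c : Fin (N' + 1) → ℂ, ψ (∑ i, algebraMap ℂ K' (c i) * y' i) =
      ∑ i, algebraMap ℂ L (c i) * ψ (y' i) := by
    intro c
    rw [map_sum]
    exact Finset.sum_congr rfl fun i _ => by rw [map_mul, AlgHom.commutes]
  have h1 : dg ℂ (Sum.elim (fun j => φ (u j)) fun j => ψ (v j)) ≤ C := by
    refine hC (by
      rw [Nat.card_eq_fintype_card, Fintype.card_sum, Fintype.card_fin, Fintype.card_fin]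
      omega) _
      (Sum.elim (fun j => Sum.elim (a j) fun _ => 0) fun j => Sum.elim (fun _ => 0) (a' j))
      (Sum.elim (fun j => Sum.elim (b j) fun _ => 0) fun j => Sum.elim (fun _ => 0) (b' j))
      ?_ ?_
    · rintro (j | j)
      · simp only [Sum.elim_inl, Fintype.sum_sum_type, Sum.elim_inr, map_zero, zero_mul,
          Finset.sum_const_zero, add_zero]
        rw [← hφs, Ne, map_eq_zero]
        exact hb j
      · simp only [Sum.elim_inl, Fintype.sum_sum_type, Sum.elim_inr, map_zero, zero_mul,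
          Finset.sum_const_zero, zero_add]
        rw [← hψs, Ne, map_eq_zero]
        exact hb' j
    · rintro (j | j)
      · simp only [Sum.elim_inl, Fintype.sum_sum_type, Sum.elim_inr, map_zero, zero_mul,
          Finset.sum_const_zero, add_zero]
        rw [← hφs, ← hφs, hab j, map_div₀]
      · simp only [Sum.elim_inl, Fintype.sum_sum_type, Sum.elim_inr, map_zero, zero_mul,
          Finset.sum_const_zero, zero_add]
        rw [← hψs, ← hψs, hab' j, map_div₀]
  have h2 : 1 ≤ mapDegree φ := Module.finrank_pos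
  rw [degreeOver_eq]
  have h3 : ((dg ℂ (Sum.elim (fun j => φ (u j)) fun j => ψ (v j)) : ℕ) : ℝ) ≤ C := by
    exact_mod_cast h1
  have h4 : (1 : ℝ) ≤ mapDegree φ := by exact_mod_cast h2
  have h5 : (0 : ℝ) ≤ C := Nat.cast_nonneg _
  nlinarith

end

end Pool.Agent.N760.TW
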