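import Pool.Agent.N110.NV.Cl
import Pool.Agent.N760.TW.Bound

/-!
Classes of `ℝ`-divisors; numerically trivial `ℝ`-divisors `K_X + Δ` on varieties of irregularity
zero are `ℝ`-linearly trivial.
-/

set_option autoImplicit false
set_option linter.overlappingInstances false
set_option linter.unusedSectionVars false

open FF Module MvPolynomial Pool.Agent.W602.GT Pool.Agent.W603.LV Pool.Agent.W619.PQ
open Pool.Agent.Y172 Pool.Agent.Y191 Pool.Agent.R887 Pool.Agent.N110 Pool.Agent.N110.NV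

namespace Pool.Agent.N760.TW

section

variable {K : Type} [Field K] [Algebra ℂ K] {N n : ℕ} {y : Fin (N + 1) → K} {ρ : ℕ}
  {c : Place ℂ K → Fin ρ → ℚ}

/-- finite support on the prime divisors -/
def FinR (y : Fin (N + 1) → K) (D : Place ℂ K → ℝ) : Prop :=
  {P : Place ℂ K | IsPrimeDivisor y P ∧ D P ≠ 0}.Finite

/-- the class of an `ℝ`-divisor -/
noncomputable def clsR (y : Fin (N + 1) → K) (c : Place ℂ K → Fin ρ → ℚ) (D : Place ℂ K → ℝ) :
    Fin ρ → ℝ :=
  ∑ᶠ P ∈ {P : Place ℂ K | IsPrimeDivisor y P}, D P • toR (c P)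

theorem FinR.add {D D' : Place ℂ K → ℝ} (h : FinR y D) (h' : FinR y D') :
    FinR y (fun P => D P + D' P) := by
  refine (h.union h').subset ?_
  rintro P ⟨hP, h0⟩
  by_cases h1 : D P = 0
  · right
    refine ⟨hP, fun h2 => h0 ?_⟩
    change D P + D' P = 0
    rw [h1, h2, add_zero]
  · exact Or.inl ⟨hP, h1⟩

theorem FinR.smul {D : Place ℂ K → ℝ} (h : FinR y D) (r : ℝ) : FinR y (fun P => r * D P) := by
  refine h.subset ?_
  rintro P ⟨hP, h0⟩
  exact ⟨hP, right_ne_zero_of_mul h0⟩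

theorem FinR.cast {D : Place ℂ K → ℚ} (h : Fin0 y D) : FinR y (fun P => (D P : ℝ)) := by
  refine h.subset ?_
  rintro P ⟨hP, h0⟩
  exact ⟨hP, fun h1 => h0 (by change ((D P : ℚ) : ℝ) = 0; rw [h1, Rat.cast_zero])⟩

theorem suppR_fin (c : Place ℂ K → Fin ρ → ℚ) {D : Place ℂ K → ℝ} (h : FinR y D) :
    ({P : Place ℂ K | IsPrimeDivisor y P} ∩ Function.support fun P => D P • toR (c P)).Finite := by
  refine h.subset ?_
  rintro P ⟨hP, h0⟩
  refine ⟨hP, fun h1 => h0 ?_⟩
  change D P • toR (c P) = 0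
  rw [h1, zero_smul]

theorem clsR_add {D D' : Place ℂ K → ℝ} (h : FinR y D) (h' : FinR y D') :
    clsR y c (fun P => D P + D' P) = clsR y c D + clsR y c D' := by
  unfold clsR
  rw [← finsum_mem_add_distrib' (suppR_fin c h) (suppR_fin c h')]
  refine finsum_congr fun P => finsum_congr fun _ => ?_
  rw [add_smul]

theorem clsR_smul (D : Place ℂ K → ℝ) (r : ℝ) :
    clsR y c (fun P => r * D P) = r • clsR y c D := by
  unfold clsR
  rw [smul_finsum]
  refine finsum_congr fun P => ?_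
  rw [smul_finsum]
  refine finsum_congr fun _ => ?_
  rw [mul_smul]

theorem clsR_congr {D D' : Place ℂ K → ℝ} (h : ∀ P, IsPrimeDivisor y P → D P = D' P) :
    clsR y c D = clsR y c D' := by
  unfold clsR
  refine finsum_congr fun P => finsum_congr fun hP => ?_
  rw [h P hP]

/-- the class of a divisor with support in a finite set -/
theorem clsR_finset {T : Finset (Place ℂ K)} (hT : ∀ P ∈ T, IsPrimeDivisor y P)
    {D : Place ℂ K → ℝ} (hD : ∀ P, IsPrimeDivisor y P → P ∉ T → D P = 0) :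
    clsR y c D = ∑ P ∈ T, D P • toR (c P) := by
  unfold clsR
  rw [← finsum_mem_coe_finset]
  refine finsum_mem_inter_support_eq _ _ _ ?_
  ext Q
  constructor
  · rintro ⟨h1, h0⟩
    refine ⟨?_, h0⟩
    by_contra h2
    apply h0
    change D Q • toR (c Q) = 0
    rw [hD Q h1 (fun h3 => h2 (Finset.mem_coe.2 h3)), zero_smul]
  · rintro ⟨h1, h0⟩
    exact ⟨hT Q (Finset.mem_coe.1 h1), h0⟩

theorem exists_supp {D : Place ℂ K → ℝ} (h : FinR y D) :
    ∃ T : Finset (Place ℂ K), (∀ P ∈ T, IsPrimeDivisor y P) ∧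
      ∀ P, IsPrimeDivisor y P → P ∉ T → D P = 0 := by
  refine ⟨h.toFinset, fun P hP => (h.mem_toFinset.1 hP).1, fun P hP h1 => ?_⟩
  by_contra h2
  exact h1 (h.mem_toFinset.2 ⟨hP, h2⟩)

theorem clsR_cast {D : Place ℂ K → ℚ} (h : Fin0 y D) :
    clsR y c (fun P => (D P : ℝ)) = toR (cls y c D) := by
  obtain ⟨T, hT, hD⟩ := exists_supp (FinR.cast h)
  rw [clsR_finset hT hD, cls_finset hT (fun P hP h1 => by exact_mod_cast hD P hP h1), toR_sum]
  exact Finset.sum_congr rfl fun P _ => (toR_smul _ _).symm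

/-- the class of an effective `ℝ`-divisor is in the closed cone -/
theorem clsR_mem {D : Place ℂ K → ℝ} (h : FinR y D) (h0 : ∀ P, IsPrimeDivisor y P → 0 ≤ D P) :
    clsR y c D ∈ closure (effSet y c) := by
  classical
  obtain ⟨T, hT, hD⟩ := exists_supp h
  rw [clsR_finset hT hD]
  have key : ∀ S : Finset (Place ℂ K), (∀ P ∈ S, IsPrimeDivisor y P) →
      ∑ P ∈ S, D P • toR (c P) ∈ closure (effSet y c) := by
    intro S
    induction S using Finset.induction_on with
    | empty =>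
      intro _
      rw [Finset.sum_empty]
      refine subset_closure ?_
      have h1 := eff_mem (y := y) (c := c) (D := fun _ => 0)
        ⟨fun _ _ => le_rfl, Set.finite_empty.subset (by rintro P ⟨-, h⟩; exact h rfl)⟩
      rw [cls_zero] at h1
      have h2 : toR (0 : Fin ρ → ℚ) = 0 := by
        funext i
        simp [toR]
      rwa [h2] at h1
    | insert a S ha ih =>
      intro hS
      rw [Finset.sum_insert ha]
      refine clo_add (clo_smul (subset_closure ?_) (h0 a (hS a (Finset.mem_insert_self a S))))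
        (ih fun P hP => hS P (Finset.mem_insert_of_mem hP))
      have h1 := eff_mem (y := y) (c := c) (D := fun Q => if Q = a then (1 : ℚ) else 0)
        ⟨fun P _ => by simp only []; split_ifs <;> norm_num, fin_single a 1⟩
      rwa [cls_single (hS a (Finset.mem_insert_self a S)), one_smul] at h1
  exact key T hT

theorem clsR_principal (hy : NormalModel y) (hc : FiniteClasses y c) {f : K} (hf : f ≠ 0) :
    clsR y c (fun P => (P.ord f : ℝ)) = 0 := by
  have h1 : Fin0 y (fun P => (P.ord f : ℚ)) := by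
    refine (finite_ord hy hf).subset ?_
    rintro P ⟨hP, h0⟩
    exact ⟨hP, fun h2 => h0 (by change ((P.ord f : ℤ) : ℚ) = 0; rw [h2, Int.cast_zero])⟩
  have h2 := clsR_cast (c := c) h1
  rw [hc.principal f hf] at h2
  have h3 : toR (0 : Fin ρ → ℚ) = 0 := by
    funext i
    simp [toR]
  rw [h3] at h2
  rw [← h2]
  refine clsR_congr fun P _ => ?_
  push_cast
  rfl

/-- a vector in the closed cone up to arbitrarily small multiples -/
theorem mem_of_small {x h : Fin ρ → ℝ}
    (hx : ∀ ε : ℝ, 0 < ε → ∃ t : ℝ, 0 ≤ t ∧ t ≤ ε ∧ x + t • h ∈ closure (effSet y c)) :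
    x ∈ closure (effSet y c) := by
  have h1 : x ∈ closure (closure (effSet y c)) := by
    rw [Metric.mem_closure_iff]
    intro ε hε
    obtain ⟨t, ht0, ht, hm⟩ := hx (ε / (‖h‖ + 1) / 2) (by positivity)
    refine ⟨_, hm, ?_⟩
    rw [dist_eq_norm, sub_add_cancel_left, norm_neg, norm_smul, Real.norm_of_nonneg ht0]
    have h2 : t * ‖h‖ ≤ ε / (‖h‖ + 1) / 2 * ‖h‖ := mul_le_mul_of_nonneg_right ht (norm_nonneg _)
    have h3 : ε / (‖h‖ + 1) / 2 * ‖h‖ ≤ ε / 2 := by
      rw [div_div, div_mul_eq_mul_div, div_le_div_iff₀ (by positivity) (by norm_num)]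
      have := norm_nonneg h
      nlinarith
    linarith
  rwa [closure_closure] at h1

/-- **Numerically trivial divisors `K_X + Δ` have class zero**, if the pseudo-effective cone contains
no line. -/
theorem cls_zero_of_trivial (hy : NormalModel y) (hc : FiniteClasses y c)
    {Δ : Place ℂ K → ℝ} (hΔ : FinR y Δ)
    (hnt : NumTrivialR y n Δ) {E : Fin n → Derivation ℂ K K} {κ : Place ℂ K → ℤ}
    (hκfin : {P | IsPrimeDivisor y P ∧ κ P ≠ 0}.Finite)
    (hκ : ∀ P, IsPrimeDivisor y P → ∀ (m : ℕ)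
      (ω : (Fin n → Derivation ℂ K K) → K), IsPluri m ω → ∀ r : ℚ, OrdGe P ω r ↔
        (ω E = 0 ∨ r ≤ m * κ P + P.ord (ω E))) (hP0 : ∃ P, IsPrimeDivisor y P) :
    clsR y c (fun P => (κ P : ℝ) + Δ P) = 0 := by
  classical
  obtain ⟨i, hi⟩ := hy.ne
  obtain ⟨H, hH, hHP⟩ := exists_hyp hy hi
  have hκR : FinR y (fun P => (κ P : ℝ)) := by
    refine hκfin.subset ?_
    rintro P ⟨hP, h0⟩
    exact ⟨hP, fun h => h0 (by change ((κ P : ℤ) : ℝ) = 0; rw [h, Int.cast_zero])⟩
  obtain ⟨D, hD⟩ : ∃ D : Place ℂ K → ℝ, D = fun P => (κ P : ℝ) + Δ P := ⟨_, rfl⟩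
  have hDf : FinR y D := by
    rw [hD]
    exact hκR.add hΔ
  have hHf : Fin0 y H := hH.2
  have hordf : ∀ g : K, g ≠ 0 → FinR y (fun P => (P.ord g : ℝ)) := by
    intro g hg
    refine (finite_ord hy hg).subset ?_
    rintro P ⟨hP, h0⟩
    exact ⟨hP, fun h2 => h0 (by change ((P.ord g : ℤ) : ℝ) = 0; rw [h2, Int.cast_zero])⟩
  have hHord : ∀ P l, IsPrimeDivisor y P → Centred y l P → (H P : ℝ) = P.ord (y i / y l) := by
    intro P l hP hl
    have := hHP P l hP hl
    rw [this]
    push_cast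
    rfl
  -- the two inclusions
  have key : ∀ s : ℝ, (s = 1 ∨ s = -1) →
      (∀ ε : ℝ, 0 < ε → ∃ m b : ℕ, 1 ≤ m ∧ (b : ℝ) ≤ ε * m ∧ ∃ (s' : ℝ) (g : K), g ≠ 0 ∧
        (s' = 1 ∨ s' = -1) ∧
        ∀ P, IsPrimeDivisor y P → 0 ≤ s * (m * D P) + s' * P.ord g + b * (H P : ℝ)) →
      s • clsR y c D ∈ closure (effSet y c) := by
    intro s _ hs
    refine mem_of_small (h := toR (cls y c H)) fun ε hε => ?_
    obtain ⟨m, b, hm, hb, s', g, hg, -, hpos⟩ := hs ε hε
    have hm0 : (0 : ℝ) < m := by exact_mod_cast hm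
    refine ⟨b / m, by positivity, by rwa [div_le_iff₀ hm0], ?_⟩
    have h1 : FinR y (fun P => (s * m) * D P + (s' * P.ord g + b * (H P : ℝ))) :=
      (hDf.smul _).add (((hordf g hg).smul s').add ((FinR.cast hHf).smul b))
    have h2 := clsR_mem (c := c) h1 (fun P hP => by
      have := hpos P hP
      linarith)
    rw [clsR_add (hDf.smul _) (((hordf g hg).smul s').add ((FinR.cast hHf).smul b)),
      clsR_add ((hordf g hg).smul s') ((FinR.cast hHf).smul b), clsR_smul, clsR_smul, clsR_smul,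
      clsR_principal hy hc hg, smul_zero, zero_add, clsR_cast hHf] at h2
    have h3 := clo_smul h2 (show (0 : ℝ) ≤ 1 / m by positivity)
    rw [smul_add, smul_smul, smul_smul] at h3
    have h4 : 1 / (m : ℝ) * (s * m) = s := by field_simp
    have h5 : 1 / (m : ℝ) * b = b / m := by ring
    rwa [h4, h5] at h3
  have hpos := key 1 (Or.inl rfl) (fun ε hε => by
    obtain ⟨m, b, hm, hb, η, hη, ho⟩ := hnt.1 i hi ε hε
    have hηE : η E ≠ 0 := by
      obtain ⟨P0, hP0⟩ := hP0
      obtain ⟨l, hl⟩ := exists_centred hy P0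
      obtain ⟨z, hz, -⟩ := ho P0 l hP0 hl
      exact (val_of_ordEq hκ hP0 hη hz).1
    refine ⟨m, b, hm, hb, 1, η E, hηE, Or.inl rfl, fun P hP => ?_⟩
    obtain ⟨l, hl⟩ := exists_centred hy P
    obtain ⟨z, hz, hz1⟩ := ho P l hP hl
    rw [(val_of_ordEq hκ hP hη hz).2] at hz1
    rw [hHord P l hP hl, hD]
    push_cast at hz1 ⊢
    linarith)
  have hneg := key (-1) (Or.inr rfl) (fun ε hε => by
    obtain ⟨m, b, hm, hb, η, hη, ho⟩ := hnt.2 i hi ε hε
    have hηE : η E ≠ 0 := by
      obtain ⟨P0, hP0⟩ := hP0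
      obtain ⟨l, hl⟩ := exists_centred hy P0
      obtain ⟨z, hz, -⟩ := ho P0 l hP0 hl
      exact (val_of_ordEq hκ hP0 hη hz).1
    refine ⟨m, b, hm, hb, -1, η E, hηE, Or.inr rfl, fun P hP => ?_⟩
    obtain ⟨l, hl⟩ := exists_centred hy P
    obtain ⟨z, hz, hz1⟩ := ho P l hP hl
    rw [(val_of_ordEq hκ hP hη hz).2] at hz1
    rw [hHord P l hP hl, hD]
    push_cast at hz1 ⊢
    linarith)
  rw [one_smul] at hpos
  rw [neg_one_smul] at hneg
  rw [← hD]
  exact hc.salient _ hpos hneg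

/-- **Real relations are combinations of rational relations.** -/
theorem exists_rational {D : Place ℂ K → ℝ} (hD : FinR y D) (h0 : clsR y c D = 0) :
    ∃ (s : ℕ) (r : Fin s → ℝ) (D' : Fin s → Place ℂ K → ℚ), (∀ j, Fin0 y (D' j)) ∧
      (∀ j, cls y c (D' j) = 0) ∧ ∀ P, IsPrimeDivisor y P → D P = ∑ j, r j * D' j P := by
  classical
  obtain ⟨T, hT, hDT⟩ := exists_supp hD
  obtain ⟨V, hV⟩ : ∃ V : Submodule ℚ ℝ, V = Submodule.span ℚ (D '' (T : Set (Place ℂ K))) :=
    ⟨_, rfl⟩
  have hfd : FiniteDimensional ℚ V := by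
    rw [hV]
    exact FiniteDimensional.span_of_finite ℚ ((Finset.finite_toSet T).image D)
  let b := Module.finBasis ℚ V
  have hmem : ∀ P ∈ T, D P ∈ V := fun P hP => by
    rw [hV]
    exact Submodule.subset_span ⟨P, hP, rfl⟩
  let q : Fin (Module.finrank ℚ V) → Place ℂ K → ℚ := fun j P =>
    if h : P ∈ T then b.repr ⟨D P, hmem P h⟩ j else 0
  have hexp : ∀ P, IsPrimeDivisor y P → D P = ∑ j, (b j : ℝ) * q j P := by
    intro P hP
    by_cases h : P ∈ T
    · have h1 := congrArg (Subtype.val) (b.sum_repr ⟨D P, hmem P h⟩)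
      rw [Submodule.coe_sum] at h1
      simp only [] at h1
      rw [← h1]
      refine Finset.sum_congr rfl fun j _ => ?_
      simp only [q, dif_pos h, Submodule.coe_smul, Rat.smul_def]
      ring
    · rw [hDT P hP h]
      symm
      refine Finset.sum_eq_zero fun j _ => ?_
      simp only [q, dif_neg h, Rat.cast_zero, mul_zero]
  have hq0 : ∀ j P, P ∉ T → q j P = 0 := fun j P h => by simp only [q, dif_neg h]
  have hqf : ∀ j, Fin0 y (q j) := by
    intro j
    refine (Finset.finite_toSet T).subset ?_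
    rintro P ⟨hP, h1⟩
    by_contra h2
    exact h1 (hq0 j P h2)
  refine ⟨_, fun j => (b j : ℝ), q, hqf, fun j => ?_, hexp⟩
  -- the classes of the coefficients
  have hli : LinearIndependent ℚ (fun j => ((b j : V) : ℝ)) :=
    b.linearIndependent.map' V.subtype (Submodule.ker_subtype V)
  rw [clsR_finset hT hDT] at h0
  funext i
  have h1 : ∑ j, (cls y c (q j) i) • ((b j : V) : ℝ) = 0 := by
    have h2 := congrFun h0 i
    rw [Finset.sum_apply] at h2
    simp only [Pi.smul_apply, smul_eq_mul, Pi.zero_apply, toR] at h2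
    have h3 : ∀ j, (cls y c (q j) i) • ((b j : V) : ℝ) =
        ∑ P ∈ T, (b j : ℝ) * q j P * (c P i : ℝ) := by
      intro j
      rw [cls_finset hT (fun P _ h => hq0 j P h), Finset.sum_apply, Rat.smul_def]
      push_cast
      rw [Finset.sum_mul]
      refine Finset.sum_congr rfl fun P _ => ?_
      simp only [Pi.smul_apply, smul_eq_mul, Rat.cast_mul]
      ring
    rw [Finset.sum_congr rfl fun j _ => h3 j, Finset.sum_comm, ← h2]
    refine Finset.sum_congr rfl fun P hP => ?_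
    rw [← Finset.sum_mul, ← hexp P (hT P hP)]
  exact (Fintype.linearIndependent_iff.1 hli (fun j => cls y c (q j) i) h1 j)

end

end Pool.Agent.N760.TW
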