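import Pool.Agent.N760.TW.Up
import Pool.Agent.N760.TW.RCls

/-!
Towers of finite multi-valued maps of pairs.
-/

set_option autoImplicit false
set_option linter.overlappingInstances false
set_option linter.unusedSectionVars false

open FF Module MvPolynomial Pool.Agent.W602.GT Pool.Agent.W603.LV Pool.Agent.W619.PQ
open Pool.Agent.Y172 Pool.Agent.Y191 Pool.Agent.R887 Pool.Agent.N110 Pool.Agent.N110.NV

namespace Pool.Agent.N760.TW

section

variable {K : Type} [Field K] [Algebra ℂ K] {N n : ℕ} {y : Fin (N + 1) → K}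

/-- The `ℝ`-divisor `K_X + Δ` is `ℝ`-linearly equivalent to zero: with the canonical divisor `(η)` of
a rational `n`-form `η` it is a real linear combination of principal divisors `(f j)`. -/
def RLinTrivial (y : Fin (N + 1) → K) (n : ℕ) (Δ : Place ℂ K → ℝ) : Prop :=
  ∃ η : (Fin n → Derivation ℂ K K) → K, IsPluri 1 η ∧ ∃ (s : ℕ) (r : Fin s → ℝ) (f : Fin s → K),
    (∀ j, f j ≠ 0) ∧ ∀ P, IsPrimeDivisor y P → ∃ z : ℚ, OrdEq P η z ∧
      (z : ℝ) + Δ P = ∑ j, r j * P.ord (f j)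

/-- **Abundance in numerical dimension zero for irregularity zero**, real coefficients. -/
theorem rtrivial (hy : NormalModel y) (hn : Algebra.trdeg ℂ K = n) (hn0 : 0 < n)
    (hq : IrregularityZero y) {Δ : Place ℂ K → ℝ}
    (hΔ : {P | IsPrimeDivisor y P ∧ Δ P ≠ 0}.Finite) (hnt : NumTrivialR y n Δ) :
    RLinTrivial y n Δ := by
  classical
  obtain ⟨ρ, c, hc⟩ := hq
  obtain ⟨x, E, hx, hE⟩ := exists_crd hn (k := ℂ) (K := K)
  obtain ⟨κ, hκfin, hκ⟩ := exists_ordc hy hn hx hE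
  have h0 := cls_zero_of_trivial hy hc hΔ hnt hκfin hκ (exists_prime hy hn hn0)
  have hκR : FinR y (fun P => (κ P : ℝ)) := by
    refine hκfin.subset ?_
    rintro P ⟨hP, h1⟩
    exact ⟨hP, fun h => h1 (by change ((κ P : ℤ) : ℝ) = 0; rw [h, Int.cast_zero])⟩
  obtain ⟨s, r, D, hDf, hDc, hD⟩ := exists_rational (hκR.add hΔ) h0
  choose m hm f hf hfo using fun j => hc.torsion (D j) (hDf j) (hDc j)
  refine ⟨frm x 1 1, frm_pluri _ _ _, s, fun j => r j / m j, f, hf, fun P hP => ?_⟩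
  have h2 := ordEq_of_val hκ hP (frm_pluri x 1 1) (by
    rw [frm_self hE]
    exact one_ne_zero)
  rw [frm_self hE, P.ord_one] at h2
  refine ⟨_, h2, ?_⟩
  have h3 := hD P hP
  have h4 : ((((1 : ℕ) : ℚ) * κ P + (0 : ℤ) : ℚ) : ℝ) = κ P := by
    push_cast
    ring
  rw [h4, h3]
  refine Finset.sum_congr rfl fun j _ => ?_
  have h5 : ((P.ord (f j) : ℤ) : ℝ) = m j * D j P := by
    have := hfo j P hP
    have h6 : (((P.ord (f j) : ℤ) : ℚ) : ℝ) = ((m j * D j P : ℚ) : ℝ) := by rw [this]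
    push_cast at h6
    exact h6
  have hm0 : (m j : ℝ) ≠ 0 := by
    have := hm j
    positivity
  rw [h5]
  field_simp

/-- **Abundance in numerical dimension zero for irregularity zero**, rational coefficients. -/
theorem ltrivial (hy : NormalModel y) (hn : Algebra.trdeg ℂ K = n) (hn0 : 0 < n)
    (hq : IrregularityZero y) {Δ : Place ℂ K → ℝ}
    (hΔ : {P | IsPrimeDivisor y P ∧ Δ P ≠ 0}.Finite)
    (hrat : ∀ P, IsPrimeDivisor y P → ∃ a : ℚ, Δ P = a) (hnt : NumTrivialR y n Δ) :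
    LinTrivial y n Δ := by
  classical
  obtain ⟨ρ, c, hc⟩ := hq
  obtain ⟨x, E, hx, hE⟩ := exists_crd hn (k := ℂ) (K := K)
  obtain ⟨κ, hκfin, hκ⟩ := exists_ordc hy hn hx hE
  have h0 := cls_zero_of_trivial hy hc hΔ hnt hκfin hκ (exists_prime hy hn hn0)
  obtain ⟨a, ha⟩ : ∃ a : Place ℂ K → ℚ, ∀ P, IsPrimeDivisor y P → Δ P = a P := by
    have h1 : ∀ P : Place ℂ K, ∃ a : ℚ, IsPrimeDivisor y P → Δ P = a := by
      intro P
      by_cases hP : IsPrimeDivisor y P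
      · obtain ⟨a, ha⟩ := hrat P hP
        exact ⟨a, fun _ => ha⟩
      · exact ⟨0, fun h => absurd h hP⟩
    choose a ha using h1
    exact ⟨a, ha⟩
  have hDf : Fin0 y (fun P => (κ P : ℚ) + a P) := by
    refine (hκfin.union hΔ).subset ?_
    rintro P ⟨hP, h1⟩
    by_cases h2 : κ P = 0
    · right
      refine ⟨hP, fun h3 => h1 ?_⟩
      rw [ha P hP] at h3
      have h4 : a P = 0 := by exact_mod_cast h3
      change (κ P : ℚ) + a P = 0
      rw [h2, h4, Int.cast_zero, add_zero]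
    · exact Or.inl ⟨hP, h2⟩
  have h1 : cls y c (fun P => (κ P : ℚ) + a P) = 0 := by
    have h2 := clsR_cast (c := c) hDf
    have h3 : clsR y c (fun P => (((κ P : ℚ) + a P : ℚ) : ℝ)) =
        clsR y c (fun P => (κ P : ℝ) + Δ P) := by
      refine clsR_congr fun P hP => ?_
      rw [ha P hP]
      push_cast
      rfl
    rw [h3, h0] at h2
    funext i
    have h4 := congrFun h2 i
    change (0 : ℝ) = ((cls y c (fun P => (κ P : ℚ) + a P) i : ℚ) : ℝ) at h4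
    exact_mod_cast h4.symm
  obtain ⟨m, hm, f, hf, hfo⟩ := hc.torsion _ hDf h1
  refine ⟨m, hm, frm x m f⁻¹, frm_pluri _ _ _, fun P hP => ?_⟩
  have h2 := ordEq_of_val hκ hP (frm_pluri x m f⁻¹) (by
    rw [frm_self hE]
    exact inv_ne_zero hf)
  rw [frm_self hE, P.ord_inv] at h2
  refine ⟨_, h2, ?_⟩
  have h3 := hfo P hP
  have h4 : (((P.ord f : ℤ) : ℚ) : ℝ) = ((m * ((κ P : ℚ) + a P) : ℚ) : ℝ) := by rw [h3]
  rw [ha P hP]
  push_cast at h4 ⊢
  linarith

end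

section

variable {K L : ℕ → Type} [∀ k, Field (K k)] [∀ k, Algebra ℂ (K k)]
  [∀ k, Field (L k)] [∀ k, Algebra ℂ (L k)] {N : ℕ → ℕ} {y : ∀ k, Fin (N k + 1) → K k} {n : ℕ}

/-- small products of the tails -/
theorem tail_small {c τ : ℕ → ℝ} (hc0 : ∀ k, 0 < c k)
    (hlim : ∀ ε : ℝ, 0 < ε → ∀ s0 : ℕ, ∃ s, s0 ≤ s ∧ (∏ l ∈ Finset.range s, c l) * τ s < ε)
    (k : ℕ) {ε : ℝ} (hε : 0 < ε) :
    ∃ s : ℕ, (∏ l ∈ Finset.range s, c (k + l)) * τ (k + s) < ε := by
  have hp : 0 < ∏ l ∈ Finset.range k, c l := Finset.prod_pos fun l _ => hc0 l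
  obtain ⟨s, hs, h1⟩ := hlim ((∏ l ∈ Finset.range k, c l) * ε) (mul_pos hp hε) k
  obtain ⟨t, rfl⟩ := Nat.exists_eq_add_of_le hs
  refine ⟨t, ?_⟩
  rw [Finset.prod_range_add, mul_assoc] at h1
  exact lt_of_mul_lt_mul_left h1 hp.le

end

end Pool.Agent.N760.TW
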