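import Pool.Agent.N760.TW.Bound

/-!
Finite multi-valued maps with the log ramification inequality: pseudo-effective divisors `K_X + Δ`,
and their sections, are pushed forward.
-/

set_option autoImplicit false
set_option linter.overlappingInstances false
set_option linter.unusedSectionVars false

open FF Module MvPolynomial Pool.Agent.W602.GT Pool.Agent.W603.LV Pool.Agent.W619.PQ
open Pool.Agent.Y172 Pool.Agent.Y191 Pool.Agent.R887

namespace Pool.Agent.N760.TW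

section

variable {K K' L : Type} [Field K] [Algebra ℂ K] [Field K'] [Algebra ℂ K'] [Field L] [Algebra ℂ L]
  {N N' : ℕ} {y : Fin (N + 1) → K} {y' : Fin (N' + 1) → K'} {n : ℕ}

/-- the inequality for the lower thresholds with all data for the map in the opposite direction -/
theorem flip_log {Δ : Place ℂ K → ℝ} {Δ' : Place ℂ K' → ℝ} (φ : K →ₐ[ℂ] L) (ψ : K' →ₐ[ℂ] L)
    (hlog : FiniteLogPullBackLe φ ψ y Δ y' Δ')
    (hfin : ∀ P' : Place ℂ K', IsPrimeDivisor y' P' → ∀ (Q : Place ℂ L) (e' : ℕ),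
      LiesOver ψ Q P' e' → ∀ (P : Place ℂ K) (e : ℕ), LiesOver φ Q P e → IsPrimeDivisor y P) :
    ∀ P' : Place ℂ K', IsPrimeDivisor y' P' → ∀ (Q : Place ℂ L) (e' : ℕ), LiesOver ψ Q P' e' →
      ∀ (P : Place ℂ K) (e : ℕ), LiesOver φ Q P e →
        IsPrimeDivisor y P ∧ (e' : ℝ) * (1 - Δ' P') ≤ e * (1 - Δ P) := by
  intro P' hP' Q e' hQ' P e hQ
  have hP := hfin P' hP' Q e' hQ' P e hQ
  exact ⟨hP, (hlog P hP Q e hQ P' e' hQ').2⟩

/-- **Push forward of pseudo-effective divisors `K_X + Δ`.** -/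
theorem psef_up (hy : NormalModel y) (hn : Algebra.trdeg ℂ K = n) (hn0 : 0 < n)
    (hy' : NormalModel y') (hn' : Algebra.trdeg ℂ K' = n) {Δ : Place ℂ K → ℝ}
    {Δ' : Place ℂ K' → ℝ} (φ : K →ₐ[ℂ] L) (ψ : K' →ₐ[ℂ] L)
    (hψ0 : FiniteDimensional ψ.fieldRange L) (hlog : FiniteLogPullBackLe φ ψ y Δ y' Δ')
    (hfin : ∀ P' : Place ℂ K', IsPrimeDivisor y' P' → ∀ (Q : Place ℂ L) (e' : ℕ),
      LiesOver ψ Q P' e' → ∀ (P : Place ℂ K) (e : ℕ), LiesOver φ Q P e → IsPrimeDivisor y P)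
    (h : PseudoEffectiveR y n Δ) : PseudoEffectiveR y' n Δ' := by
  obtain ⟨hessL, hnL⟩ := ess_of_range hy'.ess ψ hψ0 hn'
  have hφ0 := range_finite hessL hnL hn φ
  obtain ⟨c, hc⟩ := exists_multi (y := y') (y' := y) hn0 hessL hnL ψ φ hψ0
  have h0 : LowerThresholdLe y n Δ 0 := by
    intro i hi ε hε
    obtain ⟨m, b, hm, hb, η, hη⟩ := h i hi ε hε
    refine ⟨m, b, hm, ?_, η, hη⟩
    rw [zero_add]
    exact hb
  have h1 := lowerThreshold_le hy' hn' hn0 hy hn ψ φ hφ0 (flip_log φ ψ hlog hfin) hc le_rfl h0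
  rw [mul_zero] at h1
  exact lowerThresholdLe_zero h1

/-- Some positive multiple of `K_X + Δ` has a section which is not zero. -/
def HasSection (y : Fin (N + 1) → K) (n : ℕ) (Δ : Place ℂ K → ℝ) : Prop :=
  ∃ m : ℕ, 1 ≤ m ∧ ∃ η : (Fin n → Derivation ℂ K K) → K, IsPluri m η ∧
    ∀ P, IsPrimeDivisor y P → ∃ z : ℚ, OrdEq P η z ∧ -(m * Δ P) ≤ (z : ℝ)

/-- Some positive multiple of `K_X + Δ` is linearly equivalent to zero. -/
def LinTrivial (y : Fin (N + 1) → K) (n : ℕ) (Δ : Place ℂ K → ℝ) : Prop :=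
  ∃ m : ℕ, 1 ≤ m ∧ ∃ η : (Fin n → Derivation ℂ K K) → K, IsPluri m η ∧
    ∀ P, IsPrimeDivisor y P → ∃ z : ℚ, OrdEq P η z ∧ (z : ℝ) = -(m * Δ P)

theorem HasSection.psef {Δ : Place ℂ K → ℝ} (h : HasSection y n Δ) : PseudoEffectiveR y n Δ := by
  obtain ⟨m, hm, η, hη, ho⟩ := h
  intro i hi ε hε
  refine ⟨m, 0, hm, by push_cast; positivity, η, hη, fun P l hP hl => ?_⟩
  obtain ⟨z, hz, hz1⟩ := ho P hP
  exact ⟨z, hz, by push_cast; linarith⟩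

theorem LinTrivial.sec {Δ : Place ℂ K → ℝ} (h : LinTrivial y n Δ) : HasSection y n Δ := by
  obtain ⟨m, hm, η, hη, ho⟩ := h
  refine ⟨m, hm, η, hη, fun P hP => ?_⟩
  obtain ⟨z, hz, hz1⟩ := ho P hP
  exact ⟨z, hz, hz1.ge⟩

/-- **Push forward of sections.** -/
theorem section_up (hy : NormalModel y) (hn : Algebra.trdeg ℂ K = n) (hn0 : 0 < n)
    (hy' : NormalModel y') (hn' : Algebra.trdeg ℂ K' = n) {Δ : Place ℂ K → ℝ}
    {Δ' : Place ℂ K' → ℝ} (φ : K →ₐ[ℂ] L) (ψ : K' →ₐ[ℂ] L)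
    (hψ0 : FiniteDimensional ψ.fieldRange L) (hlog : FiniteLogPullBackLe φ ψ y Δ y' Δ')
    (hfin : ∀ P' : Place ℂ K', IsPrimeDivisor y' P' → ∀ (Q : Place ℂ L) (e' : ℕ),
      LiesOver ψ Q P' e' → ∀ (P : Place ℂ K) (e : ℕ), LiesOver φ Q P e → IsPrimeDivisor y P)
    (h : HasSection y n Δ) : HasSection y' n Δ' := by
  classical
  obtain ⟨hessL, hnL⟩ := ess_of_range hy'.ess ψ hψ0 hn'
  have hφ0 := range_finite hessL hnL hn φ
  obtain ⟨c, hc⟩ := exists_multi (y := y') (y' := y) hn0 hessL hnL ψ φ hψ0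
  obtain ⟨m, hm, η, hη, ho⟩ := h
  obtain ⟨x, E, hx, hE⟩ := exists_crd hn (k := ℂ) (K := K)
  obtain ⟨κ, -, hκ⟩ := exists_ordc hy hn hx hE
  obtain ⟨x', E', hx', hE'⟩ := exists_crd hn' (k := ℂ) (K := K')
  obtain ⟨κ', -, hκ'⟩ := exists_ordc hy' hn' hx' hE'
  obtain ⟨P1, hP1⟩ := exists_prime hy' hn' hn0
  obtain ⟨Q1, e1, P1', e1', hQ1, hQ1'⟩ := exists_lies hn' hy' hy hn ψ φ hφ0 P1
  obtain ⟨i, hi⟩ := hy.ne
  obtain ⟨i0, hi0⟩ := hy'.ne
  obtain ⟨F, ρ1, hF, -, -, hstep⟩ := neg_step hy' hn' hn0 hy hn ψ φ hφ0 (flip_log φ ψ hlog hfin)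
    hx' hE' hx hE hκ' hκ hi0 hi hc hQ1 hP1 hQ1'
  have hηE : η E ≠ 0 := by
    obtain ⟨P0, hP0⟩ := exists_prime hy hn hn0
    obtain ⟨z, hz, -⟩ := ho P0 hP0
    exact (val_of_ordEq hκ hP0 hη hz).1
  obtain ⟨k, B, hk, -, h1, -⟩ := hstep (η E) 0 m hηE (fun P l hP hl => by
    obtain ⟨z, hz, hz1⟩ := ho P hP
    rw [(val_of_ordEq hκ hP hη hz).2] at hz1
    push_cast at hz1 ⊢
    linarith)
  refine ⟨F * m, Nat.mul_pos hF hm, frm x' (F * m) k, frm_pluri _ _ _, fun P hP => ?_⟩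
  have h2 := ordEq_of_val hκ' hP (frm_pluri x' (F * m) k) (by
    rw [frm_self hE']
    exact hk)
  rw [frm_self hE'] at h2
  refine ⟨_, h2, ?_⟩
  obtain ⟨l, hl⟩ := exists_centred hy' P
  have h3 := h1 P l hP hl
  push_cast at h3 ⊢
  linarith

end

end Pool.Agent.N760.TW
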